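import Pool.Agent.Helper45.LGB.St

set_option autoImplicit false

/-! Project LGB, module PKN: cutting a word into factors with packings. -/

namespace Pool.Agent.Helper8.LGB

open Pool.Agent.Helper45.LGB

private lemma pk_zero {ι : Type} (E : ι → ι → Prop) (r : ℕ) (T : Set ι) : Pk E r 0 T :=
  ⟨∅, rfl, by simp, by simp⟩

private lemma not_pk_nil {ι : Type} (E : ι → ι → Prop) (r a : ℕ) (ha : 1 ≤ a) :
    ¬ Pk E r a (ltr ([] : List ι)) := by
  rintro ⟨P, hc, hT, -⟩
  have hne : P.Nonempty := by
    rw [← Finset.card_pos]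
    omega
  obtain ⟨x, hx⟩ := hne
  have := hT x hx
  simp [ltr] at this

private lemma cut_aux (hPKU : StPKU) {ι : Type} (E : ι → ι → Prop) (r a b : ℕ) (ha : 1 ≤ a)
    (hb : 1 ≤ b) : ∀ (u w : List ι), ¬ Pk E r a (ltr w) → Pk E r (a + b) (ltr (w ++ u)) →
      ∃ u₁ u₂ : List ι, w ++ u = u₁ ++ u₂ ∧ Pk E r a (ltr u₁) ∧ Pk E r b (ltr u₂) := by
  obtain ⟨h1, h2, -, -, h5⟩ := hPKU ι E
  intro u
  induction u with
  | nil =>
    intro w hw hu
    rw [List.append_nil] at hu
    exact absurd (h2 r (a + b) a _ _ hu (by omega) (subset_refl _)) hw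
  | cons y u ih =>
    intro w hw hu
    by_cases hy : Pk E r a (ltr (w ++ [y]))
    · refine ⟨w ++ [y], u, by simp, hy, ?_⟩
      have hu' : Pk E r (a + (b - 1) + 1) (ltr (w ++ y :: u)) := by
        have : a + (b - 1) + 1 = a + b := by omega
        rw [this]
        exact hu
      rcases h1 r a (b - 1) (ltr (w ++ y :: u)) (ltr (w ++ [y])) (ltr u) hu' (by
        intro i hi
        simp only [ltr, Set.mem_ofPred_eq, List.mem_append, List.mem_cons, List.not_mem_nil,
          or_false] at hi ⊢
        tauto) with h | h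
      · exfalso
        apply hw
        refine h2 r a a _ _ (h5 r a _ y h) le_rfl ?_
        rintro i ⟨hi, hne⟩
        simp only [ltr, Set.mem_ofPred_eq, List.mem_append, List.mem_cons, List.not_mem_nil,
          or_false] at hi ⊢
        rcases hi with hi | hi
        · exact hi
        · exact absurd hi hne
      · have : b - 1 + 1 = b := by omega
        rw [this] at h
        exact h
    · have e : w ++ y :: u = (w ++ [y]) ++ u := by simp
      rw [e] at hu ⊢
      exact ih (w ++ [y]) hy hu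

private lemma cut (hPKU : StPKU) {ι : Type} (E : ι → ι → Prop) (r a b : ℕ) (u : List ι)
    (h : Pk E r (a + b) (ltr u)) :
    ∃ u₁ u₂ : List ι, u = u₁ ++ u₂ ∧ Pk E r a (ltr u₁) ∧ Pk E r b (ltr u₂) := by
  rcases Nat.eq_zero_or_pos a with ha | ha
  · subst ha
    rw [Nat.zero_add] at h
    exact ⟨[], u, by simp, pk_zero E r _, h⟩
  · rcases Nat.eq_zero_or_pos b with hb | hb
    · subst hb
      rw [Nat.add_zero] at h
      exact ⟨u, [], by simp, h, pk_zero E r _⟩
    · have h' : Pk E r (a + b) (ltr ([] ++ u)) := by simpa using h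
      obtain ⟨u₁, u₂, h1, h2, h3⟩ := cut_aux hPKU E r a b ha hb u [] (not_pk_nil E r a ha) h'
      exact ⟨u₁, u₂, by simpa using h1, h2, h3⟩

/-- Module PKN: cutting a word. -/
theorem hPKN (hPKU : StPKU) : StPKN := by
  intro ι E r a k
  induction k with
  | zero =>
    intro u hu
    refine ⟨[u], rfl, by simp, ?_⟩
    intro u' hu'
    rw [List.mem_singleton] at hu'
    subst hu'
    simpa using hu
  | succ k ih =>
    intro u hu
    have e : (k + 1 + 1) * a = a + (k + 1) * a := by ring
    rw [e] at hu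
    obtain ⟨u₁, u₂, h1, h2, h3⟩ := cut hPKU E r a ((k + 1) * a) u hu
    obtain ⟨us, h4, h5, h6⟩ := ih u₂ h3
    refine ⟨u₁ :: us, by simp [h4], ?_, ?_⟩
    · rw [h1, h5, List.flatten_cons]
    · intro u' hu'
      rcases List.mem_cons.1 hu' with h | h
      · rw [h]
        exact h2
      · exact h6 u' h

end Pool.Agent.Helper8.LGB
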